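import Mathlib
import Pool.Agent.X34.E.E12
import Pool.Agent.X34.E.E7
import Pool.Agent.X34.E.E4
import Pool.Agent.TH779.Shat.Trace

/-!
# Exact sets of prime values of linear forms along narrow progressions, and in the right order of magnitude
-/

set_option autoImplicit false

namespace Pool.Agent.H40E9.XP

open Finset Filter
open Pool.Agent.X34.E
open Pool.Agent.H95R2.BG.LF
open Pool.Agent.TH779.Shat (congruences)

universe u

theorem nar_iff (X : ℕ → Prop) : Nar X ↔ ∀ l : ℕ, ∃ C : ℕ, ∃ᶠ N : ℕ in atTop, ∃ d : ℕ, 1 ≤ d ∧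
    (d : ℝ) ≤ Real.log N ^ C ∧ (N : ℝ) / Real.log N ^ C ≤
      (Set.ncard {n : ℕ | 1 ≤ n ∧ n ≤ N ∧ ∀ t < l, X (n + t * d)} : ℝ) := by
  classical
  have key : ∀ (l N d : ℕ), Set.ncard {n : ℕ | 1 ≤ n ∧ n ≤ N ∧ ∀ t < l, X (n + t * d)} =
      ((Icc 1 N).filter (fun n : ℕ => ∀ j < l, X (n + j * d))).card := by
    intro l N d
    rw [← Set.ncard_coe_finset]
    congr 1
    ext n
    rw [mem_coe, mem_filter, mem_Icc]
    constructor
    · rintro ⟨h1, h2, h3⟩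
      exact ⟨⟨h1, h2⟩, h3⟩
    · rintro ⟨⟨h1, h2⟩, h3⟩
      exact ⟨h1, h2, h3⟩
  unfold Nar
  simp only [key]

/-- 45 new forms whose exact sets of prime values are exact for the whole family -/
theorem setup {ι : Type u} [Fintype ι] [DecidableEq ι] (a b : ι → ℕ)
    (ha : ∀ i, 1 ≤ a i) (hne : ∀ i j, i ≠ j → a i * b j ≠ a j * b i) (S' : Finset ι) (hS' : 45 ≤ S'.card)
    (hloc' : ∀ p : ℕ, p.Prime → ∃ n : ℕ, ∀ i ∈ S', ¬ p ∣ a i * n + b i) :
    ∃ (W ν : ℕ) (A B : Fin 45 → ℕ) (emb : Fin 45 ↪ ι), 0 < W ∧ AdmissibleL A B ∧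
      (∀ i, emb i ∈ S') ∧ ∀ (E : Finset (Fin 45)) (y : ℝ) (m : ℕ), 1 ≤ m → At A B E y m →
        (∀ i, (a i * (W * m + ν) + b i).Prime ↔ i ∈ E.map emb) ∧
        ∀ i, ∀ p : ℕ, p.Prime → (p : ℝ) ≤ y → ¬ p ∣ a (emb i) * (W * m + ν) + b (emb i) := by
  classical
  obtain ⟨S, hSS, hSK⟩ := exists_subset_card_eq hS'
  have hloc : ∀ p : ℕ, p.Prime → ∃ n : ℕ, ∀ i ∈ S, ¬ p ∣ a i * n + b i :=
    fun p hp => (hloc' p hp).imp fun n hn i hi => hn i (hSS hi)
  obtain ⟨W, ν₀, hW, h1, h2⟩ := congruences a b ha hne S (univ \ S) sdiff_disjoint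
  obtain ⟨ν, hν⟩ : ∃ ν, ν = ν₀ + W := ⟨_, rfl⟩
  have h1' : ∀ i ∉ S, ∃ p : ℕ, p.Prime ∧ p ∣ W ∧ p ∣ a i * ν + b i := by
    intro i hi
    obtain ⟨p, hp, hpW, hp2⟩ := h1 i (mem_sdiff.2 ⟨mem_univ _, hi⟩)
    refine ⟨p, hp, hpW, ?_⟩
    rw [hν, mul_add, add_right_comm]
    exact dvd_add hp2 (hpW.mul_left _)
  have h2' : ∀ p : ℕ, p.Prime → p ∣ W → ∀ j ∈ S, ¬ p ∣ a j * ν + b j := by
    intro p hp hpW j hj hd
    apply h2 p hp hpW j hj
    rw [hν, mul_add, add_right_comm] at hd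
    exact (Nat.dvd_add_left (hpW.mul_left (a j))).1 hd
  -- the new forms
  set e : Fin 45 ≃ S := (S.equivFinOfCardEq hSK).symm with he
  set emb : Fin 45 ↪ ι := e.toEmbedding.trans (Function.Embedding.subtype _) with hemb
  have hembS : ∀ i, emb i ∈ S := fun i => (e i).2
  have hsurj : ∀ j ∈ S, ∃ i, emb i = j := by
    intro j hj
    obtain ⟨i, hi⟩ := e.surjective ⟨j, hj⟩
    exact ⟨i, congrArg Subtype.val hi⟩
  set A : Fin 45 → ℕ := fun i => a (emb i) * W with hA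
  set B : Fin 45 → ℕ := fun i => a (emb i) * ν + b (emb i) with hB
  have hval : ∀ (i : Fin 45) (t : ℕ), A i * t + B i = a (emb i) * (W * t + ν) + b (emb i) := by
    intro i t
    simp only [hA, hB]
    ring
  have hadm : AdmissibleL A B := by
    refine ⟨fun i => Nat.mul_pos (ha _) hW, ?_, ?_⟩
    · intro i j hij h
      have hne' : emb i ≠ emb j := fun h' => hij (emb.injective h')
      apply hne _ _ hne'
      simp only [hA, hB] at h
      have h3 : W * (a (emb i) * b (emb j)) = W * (a (emb j) * b (emb i)) := by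
        have h4 : a (emb i) * W * (a (emb j) * ν + b (emb j)) =
          W * (a (emb i) * b (emb j)) + W * (a (emb i) * a (emb j) * ν) := by ring
        have h5 : a (emb j) * W * (a (emb i) * ν + b (emb i)) =
          W * (a (emb j) * b (emb i)) + W * (a (emb i) * a (emb j) * ν) := by ring
        omega
      exact Nat.eq_of_mul_eq_mul_left hW h3
    · intro p hp
      by_cases hpW : p ∣ W
      · refine ⟨0, fun i => ?_⟩
        rw [hval]
        simp only [mul_zero, zero_add]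
        exact h2' p hp hpW _ (hembS i)
      · obtain ⟨n, hn⟩ := hloc p hp
        have : Fact p.Prime := ⟨hp⟩
        have hWZ : (W : ZMod p) ≠ 0 := fun h => hpW ((ZMod.natCast_eq_zero_iff _ _).1 h)
        refine ⟨(((n : ZMod p) - ν) / (W : ZMod p)).val, fun i hd => ?_⟩
        rw [hval] at hd
        apply hn (emb i) (hembS i)
        rw [← ZMod.natCast_eq_zero_iff] at hd ⊢
        push_cast at hd ⊢
        rw [ZMod.natCast_zmod_val] at hd
        rw [← hd]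
        field_simp
        ring
  refine ⟨W, ν, A, B, emb, hW, hadm, fun i => hSS (hembS i), ?_⟩
  rintro E y m hm ⟨hE1, hE2⟩
  constructor
  · intro i
    by_cases hi : i ∈ S
    · obtain ⟨i', rfl⟩ := hsurj i hi
      rw [← hval, hE1, mem_map' emb]
    · constructor
      · intro hpr
        exfalso
        obtain ⟨p, hp, hpW, hpd⟩ := h1' i hi
        have h3 : p ∣ a i * (W * m + ν) + b i := by
          have : a i * (W * m + ν) + b i = W * (a i * m) + (a i * ν + b i) := by ring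
          rw [this]
          exact dvd_add (hpW.mul_right _) hpd
        have h4 : p = a i * (W * m + ν) + b i := (Nat.prime_dvd_prime_iff_eq hp hpr).1 h3
        have h5 : p ≤ W := Nat.le_of_dvd hW hpW
        have h6 : W + W ≤ W * m + ν := by
          have : W * 1 ≤ W * m := Nat.mul_le_mul_left _ hm
          omega
        have h7 : 1 * (W * m + ν) ≤ a i * (W * m + ν) := Nat.mul_le_mul_right _ (ha i)
        omega
      · intro hi'
        obtain ⟨i', -, rfl⟩ := mem_map.1 hi'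
        exact absurd (hembS i') hi
  · intro i p hp hpy
    rw [← hval]
    exact hE2 i p hp hpy

/-- exact sets along narrow progressions -/
theorem nar_nat {ι : Type u} [Fintype ι] [DecidableEq ι] (a b : ι → ℕ)
    (ha : ∀ i, 1 ≤ a i) (hne : ∀ i j, i ≠ j → a i * b j ≠ a j * b i) (S' : Finset ι) (hS' : 45 ≤ S'.card)
    (hloc' : ∀ p : ℕ, p.Prime → ∃ n : ℕ, ∀ i ∈ S', ¬ p ∣ a i * n + b i) :
    ∃ T : Finset ι, T ⊆ S' ∧ 2 ≤ T.card ∧ Nar (fun n => ∀ i, (a i * n + b i).Prime ↔ i ∈ T) := by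
  classical
  obtain ⟨k, hk, hdhl⟩ := dhl45R
  obtain ⟨W, ν, A, B, emb, hW, hadm, hemb, hY⟩ := setup a b ha hne S' hS' hloc'
  obtain ⟨c0, hc0, hG⟩ := hdhl A B hadm
  obtain ⟨E, hE2, hE⟩ := transfer_nar (by norm_num) A B hadm k c0 hk hc0 hG W ν hW
    (fun E y n => ∀ i, (a i * n + b i).Prime ↔ i ∈ E.map emb) (fun E y m hm hAt => (hY E y m hm hAt).1)
  refine ⟨E.map emb, ?_, by rw [card_map]; exact hE2, (nar_iff _).2 hE⟩
  intro i hi
  obtain ⟨i', -, rfl⟩ := mem_map.1 hi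
  exact hemb i'

/-- exact sets in the right order of magnitude, the values being rough -/
theorem cnt_nat : ∃ k : ℝ, 0 < k ∧ ∀ {ι : Type u} [Fintype ι] [DecidableEq ι] (a b : ι → ℕ)
    (_ : ∀ i, 1 ≤ a i) (_ : ∀ i j, i ≠ j → a i * b j ≠ a j * b i) (S' : Finset ι) (_ : S'.card = 45)
    (_ : ∀ p : ℕ, p.Prime → ∃ n : ℕ, ∀ i ∈ S', ¬ p ∣ a i * n + b i),
    ∃ c : ℝ, 0 < c ∧ ∀ᶠ x : ℝ in atTop, ∃ T : Finset ι, T ⊆ S' ∧ 2 ≤ T.card ∧
      c * x / Real.log x ^ 45 ≤ (Set.ncard {n : ℕ | (n : ℝ) ≤ x ∧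
        (∀ i, (a i * n + b i).Prime ↔ i ∈ T) ∧
        ∀ i ∈ S', ∀ p : ℕ, p.Prime → (p : ℝ) ≤ x ^ k → ¬ p ∣ a i * n + b i} : ℝ) := by
  classical
  obtain ⟨k, hk, hdhl⟩ := dhl45R
  refine ⟨k / 2, by positivity, ?_⟩
  intro ι _ _ a b ha hne S' hS' hloc'
  obtain ⟨W, ν, A, B, emb, hW, hadm, hemb, hY⟩ := setup a b ha hne S' hS'.ge hloc'
  obtain ⟨c0, hc0, hG⟩ := hdhl A B hadm
  -- all of `S'` is in the range
  have hrange : ∀ i ∈ S', ∃ i', emb i' = i := by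
    have h1 : (univ : Finset (Fin 45)).map emb = S' := by
      apply Finset.eq_of_subset_of_card_le
      · intro i hi
        obtain ⟨i', -, rfl⟩ := mem_map.1 hi
        exact hemb i'
      · rw [card_map, card_univ, Fintype.card_fin, hS']
    intro i hi
    rw [← h1] at hi
    obtain ⟨i', -, h2⟩ := mem_map.1 hi
    exact ⟨i', h2⟩
  obtain ⟨c, hc, hcnt⟩ := transfer_count A B k c0 hk hc0 hG W ν hW
    (fun E y n => (∀ i, (a i * n + b i).Prime ↔ i ∈ E.map emb) ∧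
      ∀ i, ∀ p : ℕ, p.Prime → (p : ℝ) ≤ y → ¬ p ∣ a (emb i) * n + b (emb i)) hY
  refine ⟨c, hc, ?_⟩
  filter_upwards [hcnt] with x hx
  obtain ⟨E, hE2, hE⟩ := hx
  refine ⟨E.map emb, ?_, by rw [card_map]; exact hE2, hE.trans ?_⟩
  · intro i hi
    obtain ⟨i', -, rfl⟩ := mem_map.1 hi
    exact hemb i'
  · rw [Nat.cast_le]
    apply Set.ncard_le_ncard
    · rintro n ⟨-, h2, h3, h4⟩
      refine ⟨h2, h3, fun i hi => ?_⟩
      obtain ⟨i', rfl⟩ := hrange i hi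
      exact h4 i'
    · apply (Set.finite_Iic ⌊x⌋₊).subset
      rintro n ⟨h3, _⟩
      exact Nat.le_floor h3

section int

variable {ι : Type u} [Fintype ι] [DecidableEq ι] (a b : ι → ℤ)

omit [DecidableEq ι] in
/-- from integer constants to natural ones -/
theorem shift_int (ha : ∀ i, 0 < a i) (hne : ∀ i j, i ≠ j → a i * b j ≠ a j * b i) (S : Finset ι)
    (hloc : ∀ p : ℕ, p.Prime → ∃ n : ℕ, ∀ i ∈ S, ¬ (p : ℤ) ∣ a i * n + b i) :
    ∃ (s : ℕ) (A B : ι → ℕ), (∀ i, 1 ≤ A i) ∧ (∀ i j, i ≠ j → A i * B j ≠ A j * B i) ∧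
      (∀ p : ℕ, p.Prime → ∃ n : ℕ, ∀ i ∈ S, ¬ p ∣ A i * n + B i) ∧
      ∀ (i : ι) (t : ℕ), (a i * ((t + s : ℕ) : ℤ) + b i) = ((A i * t + B i : ℕ) : ℤ) := by
  classical
  obtain ⟨s, hs⟩ : ∃ s : ℕ, s = ∑ i, (b i).natAbs := ⟨_, rfl⟩
  set A : ι → ℕ := fun i => (a i).toNat with hA
  set B : ι → ℕ := fun i => (a i * s + b i).toNat with hB
  have hAi : ∀ i, ((A i : ℕ) : ℤ) = a i := fun i => Int.toNat_of_nonneg (ha i).le
  have hBi : ∀ i, ((B i : ℕ) : ℤ) = a i * s + b i := by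
    intro i
    apply Int.toNat_of_nonneg
    have h1 : (b i).natAbs ≤ s := by
      rw [hs]
      exact single_le_sum (f := fun i => (b i).natAbs) (fun _ _ => Nat.zero_le _) (mem_univ i)
    have h2 : -(s : ℤ) ≤ b i := by omega
    have h3 : (s : ℤ) ≤ a i * s := by
      have := ha i
      nlinarith [Int.natCast_nonneg s]
    linarith
  refine ⟨s, A, B, ?_, ?_, ?_, ?_⟩
  · intro i
    have h1 := hAi i
    have h2 := ha i
    omega
  · intro i j hij h
    apply hne i j hij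
    have h1 : ((A i * B j : ℕ) : ℤ) = ((A j * B i : ℕ) : ℤ) := by rw [h]
    push_cast at h1
    rw [hAi, hAi, hBi, hBi] at h1
    linarith
  · intro p hp
    obtain ⟨n, hn⟩ := hloc p hp
    refine ⟨n + (p - 1) * s, fun i hi hd => hn i hi ?_⟩
    have h1 : ((p : ℕ) : ℤ) ∣ ((A i * (n + (p - 1) * s) + B i : ℕ) : ℤ) :=
      Int.natCast_dvd_natCast.2 hd
    have h2 : ((A i * (n + (p - 1) * s) + B i : ℕ) : ℤ) = (a i * n + b i) + p * (a i * s) := by
      push_cast [Nat.cast_sub hp.one_lt.le]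
      rw [hAi, hBi]
      ring
    rw [h2] at h1
    exact (Int.dvd_add_left (Dvd.intro _ rfl)).1 h1
  · intro i t
    push_cast
    rw [hAi, hBi]
    ring

/-- exact sets along narrow progressions, integer constants -/
theorem nar_int (ha : ∀ i, 0 < a i) (hne : ∀ i j, i ≠ j → a i * b j ≠ a j * b i) (S : Finset ι)
    (hS : 45 ≤ S.card) (hloc : ∀ p : ℕ, p.Prime → ∃ n : ℕ, ∀ i ∈ S, ¬ (p : ℤ) ∣ a i * n + b i) :
    ∃ T : Finset ι, T ⊆ S ∧ 2 ≤ T.card ∧
      Nar (fun n => ∀ i, 0 ≤ a i * (n : ℤ) + b i ∧ ((a i * (n : ℤ) + b i).toNat.Prime ↔ i ∈ T)) := by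
  obtain ⟨s, A, B, h1, h2, h3, h4⟩ := shift_int a b ha hne S hloc
  obtain ⟨T, hT1, hT2, hT3⟩ := nar_nat A B h1 h2 S hS h3
  refine ⟨T, hT1, hT2, ?_⟩
  apply Nar.affine (q := 1) (b := s) one_pos
  refine hT3.mono fun n hn i => ?_
  have h5 := h4 i n
  rw [one_mul, h5, Int.toNat_natCast]
  exact ⟨Int.natCast_nonneg _, hn i⟩

end int

end Pool.Agent.H40E9.XP
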