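import Mathlib
import Pool.Agent.H40E9.XP.Trace
import Pool.Agent.R493.EX.Exact

/-!
# The exact positions of the primes in the orbits of `x ↦ a + d x` along narrow progressions
-/

set_option autoImplicit false

namespace Pool.Agent.H40E9.XP

open Finset Filter
open Pool.Agent.X34.E
open Pool.Agent.W25.IT (itc itc_zero itc_inj itc_coprime itc_add iter_admissible iter_miss)
open Pool.Agent.R493.EX (exists_nat_of_int miss_large forms_ne shift_sub E45 E45_card E45_le E45_cls)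

/-- `q` is a prime, for `1 ≤ j ≤ R` the `j`-th iterate of `q` is a prime if and only if `t + j ∈ T`, and `q` is
not the `j`-th iterate of a prime -/
def Pat (a d : ℤ) (t : ℕ) (T : Finset ℕ) (R : ℕ) (q : ℕ) : Prop :=
  q.Prime ∧ (∀ j ∈ Icc 1 R,
    ((∃ p : ℕ, p.Prime ∧ a * ∑ i ∈ range j, d ^ i + q * d ^ j = p) ↔ t + j ∈ T)) ∧
    ∀ j ∈ Icc 1 R, ∀ q' : ℕ, q'.Prime → a * ∑ i ∈ range j, d ^ i + q' * d ^ j ≠ q

theorem Pat.mono {a d : ℤ} {t : ℕ} {T : Finset ℕ} {R R' : ℕ} (h : R ≤ R') {q : ℕ}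
    (hq : Pat a d t T R' q) : Pat a d t T R q := by
  obtain ⟨h4, h5, h6⟩ := hq
  refine ⟨h4, fun j hj => h5 j ?_, fun j hj => h6 j ?_⟩
  all_goals
    rw [mem_Icc] at hj ⊢
    omega

/-- the value at `q` of the `j`-th iterate -/
theorem iter_val (a d : ℤ) (t j : ℕ) (n : ℤ) :
    a * ∑ i ∈ range j, d ^ i + (d ^ t * n + itc a d t) * d ^ j = d ^ (t + j) * n + itc a d (t + j) := by
  have h4 := itc_add a d j t
  rw [add_comm j t] at h4
  rw [h4]
  unfold itc
  rw [pow_add]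
  ring

theorem pat_of {a d : ℤ} (hd : 1 ≤ d) {J R : ℕ} {T : Finset ℕ} {t : ℕ} (ht : t ∈ T) (htJ : t ≤ J)
    (htR : R ≤ t) (hmin : ∀ e ∈ T, t ≤ e) {n : ℤ} (hpos : ∀ j ≤ J + R, 0 ≤ d ^ j * n + itc a d j)
    (hpat : ∀ j ≤ J + R, ((d ^ j * n + itc a d j).toNat.Prime ↔ j ∈ T)) :
    Pat a d t T R (d ^ t * n + itc a d t).toNat := by
  have h2 := hpos t (by omega)
  have e2 : ((d ^ t * n + itc a d t).toNat : ℤ) = d ^ t * n + itc a d t := Int.toNat_of_nonneg h2
  refine ⟨(hpat t (by omega)).2 ht, ?_, ?_⟩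
  · intro j hj
    rw [mem_Icc] at hj
    rw [e2, iter_val]
    have h5 := hpos (t + j) (by omega)
    rw [← hpat (t + j) (by omega)]
    constructor
    · rintro ⟨p, hp, hpe⟩
      rw [hpe, Int.toNat_natCast]
      exact hp
    · intro hp
      exact ⟨_, hp, (Int.toNat_of_nonneg h5).symm⟩
  · intro j hj q' hq' he
    rw [mem_Icc] at hj
    rw [e2] at he
    have h4 := itc_add a d j (t - j)
    rw [Nat.add_sub_cancel' (by omega)] at h4
    have h5 : d ^ t = d ^ j * d ^ (t - j) := by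
      rw [← pow_add, Nat.add_sub_cancel' (by omega)]
    have h6 : d ^ j * (q' : ℤ) = d ^ j * (d ^ (t - j) * n + itc a d (t - j)) := by
      rw [h4, h5] at he
      unfold itc at he ⊢
      linear_combination he
    have h7 : (q' : ℤ) = d ^ (t - j) * n + itc a d (t - j) :=
      mul_left_cancel₀ (by positivity) h6
    have h8 := (hpat (t - j) (by omega)).1 (by rw [← h7, Int.toNat_natCast]; exact hq')
    have h9 := hmin _ h8
    omega

/-- shifting the set of exponents -/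
theorem pat_shift {a d : ℤ} {t : ℕ} {T : Finset ℕ} {R s : ℕ} {q : ℕ}
    (h : Pat a d (t + s) (T.map (addRightEmbedding s)) R q) : Pat a d t T R q := by
  obtain ⟨h1, h2, h3⟩ := h
  refine ⟨h1, fun j hj => ?_, h3⟩
  rw [h2 j hj, Finset.mem_map]
  constructor
  · rintro ⟨e, he, hee⟩
    have : e + s = t + s + j := hee
    have : e = t + j := by omega
    rwa [← this]
  · intro h4
    refine ⟨t + j, h4, ?_⟩
    show t + j + s = t + s + j
    omega

/-- `Nar` under an affine substitution with an integer constant -/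
theorem Nar.affZ {X Y : ℕ → Prop} {α : ℕ} {β : ℤ} (hα : 0 < α) (h : Nar Y)
    (hYX : ∀ n : ℕ, Y n → 0 ≤ α * (n : ℤ) + β → X (α * (n : ℤ) + β).toNat) : Nar X := by
  classical
  set B : ℕ := β.natAbs with hB
  have hβ1 : -(B : ℤ) ≤ β ∧ β ≤ B := by omega
  obtain ⟨Z, hZ⟩ : ∃ Z : ℕ → Prop, ∀ m, Z m ↔ Y m ∧ B + 1 ≤ m := ⟨_, fun _ => Iff.rfl⟩
  have hl : Nar Z := (Nar.large h (B + 1)).mono fun m hm => (hZ m).2 hm
  intro l
  obtain ⟨C, hC⟩ := hl (l + 1)
  refine ⟨C + 1, ?_⟩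
  have ht : Tendsto (fun m : ℕ => α * m + B) atTop atTop := by
    apply tendsto_atTop_mono (f := fun m : ℕ => m) _ tendsto_id
    intro m
    have : 1 * m ≤ α * m := Nat.mul_le_mul_right _ hα
    show m ≤ α * m + B
    omega
  refine ht.frequently ?_
  refine (hC.and_eventually (((log_ev' (2 * α)).and (eventually_ge_atTop 3)).and
    (eventually_ge_atTop (B + 1)))).mono ?_
  rintro N ⟨⟨d, hd1, hd2, hd3⟩, ⟨hNl, hN3⟩, hNb⟩
  have hAr : (1 : ℝ) ≤ α := by exact_mod_cast hα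
  have hL1 : 1 ≤ Real.log N := by linarith
  have hNr : (0 : ℝ) < N := by exact_mod_cast (by omega : 0 < N)
  have hle : N ≤ α * N + B := by
    have : 1 * N ≤ α * N := Nat.mul_le_mul_right _ hα
    omega
  have hll : Real.log N ≤ Real.log ((α * N + B : ℕ) : ℝ) :=
    Real.log_le_log hNr (by exact_mod_cast hle)
  have hL1' : 1 ≤ Real.log ((α * N + B : ℕ) : ℝ) := hL1.trans hll
  refine ⟨α * d, Nat.mul_pos hα hd1, ?_, ?_⟩
  · have h1 : (α : ℝ) ≤ Real.log ((α * N + B : ℕ) : ℝ) := by linarith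
    have h2 : (d : ℝ) ≤ Real.log ((α * N + B : ℕ) : ℝ) ^ C :=
      hd2.trans (pow_le_pow_left₀ (by linarith) hll C)
    rw [pow_succ, mul_comm]
    have h3 : 0 ≤ Real.log ((α * N + B : ℕ) : ℝ) ^ C := pow_nonneg (by linarith) C
    push_cast at h1 h2 h3 ⊢
    exact mul_le_mul h2 h1 (by positivity) h3
  · have h1 : ((α * N + B : ℕ) : ℝ) / Real.log ((α * N + B : ℕ) : ℝ) ^ (C + 1) ≤
        (N : ℝ) / Real.log N ^ C := by
      have h2 : ((α * N + B : ℕ) : ℝ) ≤ 2 * α * N := by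
        have h3 : α * N + B ≤ 2 * α * N := by
          have : 1 * N ≤ α * N := Nat.mul_le_mul_right _ hα
          nlinarith
        exact_mod_cast h3
      rw [div_le_div_iff₀ (by positivity) (by positivity)]
      calc ((α * N + B : ℕ) : ℝ) * Real.log N ^ C ≤ (2 * α * N) * Real.log N ^ C :=
            mul_le_mul_of_nonneg_right h2 (by positivity)
        _ = N * (Real.log N ^ C * (2 * α)) := by ring
        _ ≤ N * (Real.log ((α * N + B : ℕ) : ℝ) ^ C * Real.log ((α * N + B : ℕ) : ℝ)) := by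
            apply mul_le_mul_of_nonneg_left _ hNr.le
            exact mul_le_mul (pow_le_pow_left₀ (by linarith) hll C) (hNl.trans hll) (by positivity)
              (by positivity)
        _ = N * Real.log ((α * N + B : ℕ) : ℝ) ^ (C + 1) := by rw [pow_succ]
    refine (h1.trans hd3).trans ?_
    rw [Nat.cast_le]
    -- the injection
    have hnn : ∀ n : ℕ, B + 1 ≤ n → 0 < (α : ℤ) * n + β := by
      intro n hn
      have h3 : (n : ℤ) ≤ α * n := by
        have : 1 * n ≤ α * n := Nat.mul_le_mul_right _ hα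
        have h4 : n ≤ α * n := by omega
        exact_mod_cast h4
      have h4 : ((B + 1 : ℕ) : ℤ) ≤ n := by exact_mod_cast hn
      push_cast at h4
      omega
    apply card_le_card_of_injOn (fun n : ℕ => ((α : ℤ) * n + β).toNat)
    · intro n hn
      rw [mem_coe, mem_filter, mem_Icc] at hn ⊢
      obtain ⟨⟨hn1, hn2⟩, hn3⟩ := hn
      have h0 := ((hZ _).1 (hn3 0 (by omega))).2
      rw [Nat.zero_mul, Nat.add_zero] at h0
      have hpos := hnn n h0
      have e1 : ((((α : ℤ) * n + β).toNat : ℕ) : ℤ) = (α : ℤ) * n + β := Int.toNat_of_nonneg hpos.le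
      refine ⟨⟨?_, ?_⟩, fun t ht => ?_⟩
      · show 1 ≤ ((α : ℤ) * n + β).toNat
        omega
      · have h4 : (α : ℤ) * n ≤ α * N := by
          have : (n : ℤ) ≤ N := by exact_mod_cast hn2
          exact mul_le_mul_of_nonneg_left this (by positivity)
        have h5 : ((((α : ℤ) * n + β).toNat : ℕ) : ℤ) ≤ ((α * N + B : ℕ) : ℤ) := by
          rw [e1]; push_cast; linarith [hβ1.2]
        exact_mod_cast h5
      · have h6 := (hZ _).1 (hn3 t (by omega))
        have e2 : (((((α : ℤ) * n + β).toNat + t * (α * d) : ℕ)) : ℤ) =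
            (α : ℤ) * ((n + t * d : ℕ) : ℤ) + β := by
          rw [Nat.cast_add, e1]; push_cast; ring
        have e3 : ((α : ℤ) * n + β).toNat + t * (α * d) =
            ((α : ℤ) * ((n + t * d : ℕ) : ℤ) + β).toNat := by
          rw [← e2, Int.toNat_natCast]
        show X (((α : ℤ) * n + β).toNat + t * (α * d))
        rw [e3]
        exact hYX _ h6.1 (hnn _ h6.2).le
    · intro n hn n' hn' he
      rw [mem_coe, mem_filter] at hn hn'
      have h0 := ((hZ _).1 (hn.2 0 (by omega))).2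
      have h0' := ((hZ _).1 (hn'.2 0 (by omega))).2
      have hp1 := hnn n (by simpa using h0)
      have hp2 := hnn n' (by simpa using h0')
      simp only at he
      have h5 : (α : ℤ) * n = α * n' := by omega
      have h6 : (α : ℤ) ≠ 0 := by positivity
      exact_mod_cast mul_left_cancel₀ h6 h5

/-- the local conditions of the forms of the iterates -/
theorem iter_loc {a d : ℤ} (hg : Int.gcd a d = 1) (h2 : 2 ∣ a * d) (S : Finset ℕ) (hS : S.card = 45)
    (hcls : ∀ p : ℕ, p.Prime → 3 ≤ p → p ≤ 43 → (p : ℤ) ∣ d - 1 → ¬ (p : ℤ) ∣ a →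
      ∃ r : ℕ, ∀ e ∈ S, ¬ e ≡ r [MOD p]) (p : ℕ) (hp : p.Prime) :
    ∃ n : ℤ, ∀ e ∈ S, ¬ (p : ℤ) ∣ d ^ e * n + itc a d e := by
  obtain ⟨n, hn⟩ := iter_admissible hg h2 (fun i : S => (i : ℕ)) hp (by
    intro hp3 hp1 hpa
    by_cases h43 : p ≤ 43
    · obtain ⟨r, hr⟩ := hcls p hp hp3 h43 hp1 hpa
      exact iter_miss (fun i : S => (i : ℕ)) hp hp1 hpa r (fun i => hr i i.2)
    · obtain ⟨r, hr⟩ := miss_large hS hp (by omega)
      exact iter_miss (fun i : S => (i : ℕ)) hp hp1 hpa r (fun i => hr i i.2))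
  exact ⟨n, fun e he => hn ⟨e, he⟩⟩

/-- exact patterns of the prime values among the iterates along narrow progressions -/
theorem nar_iter (a d : ℤ) (hd : 1 ≤ d) (hg : Int.gcd a d = 1) (h2 : 2 ∣ a * d) (ha : a ≠ 0)
    (S : Finset ℕ) (hS : S.card = 45)
    (hcls : ∀ p : ℕ, p.Prime → 3 ≤ p → p ≤ 43 → (p : ℤ) ∣ d - 1 → ¬ (p : ℤ) ∣ a →
      ∃ r : ℕ, ∀ e ∈ S, ¬ e ≡ r [MOD p]) (R : ℕ) :
    ∃ T ⊆ S, 2 ≤ T.card ∧ Nar (fun n => ∀ j ≤ R, 0 ≤ d ^ j * (n : ℤ) + itc a d j ∧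
        ((d ^ j * (n : ℤ) + itc a d j).toNat.Prime ↔ j ∈ T)) := by
  classical
  set m : ℕ := R + S.sup id + 1 with hm
  have hSm : ∀ e ∈ S, e < m := by
    intro e he
    have h3 : e ≤ S.sup id := Finset.le_sup (f := id) he
    omega
  set S' : Finset (Fin m) := univ.filter (fun i => (i : ℕ) ∈ S) with hS'
  have hcard : S'.card = 45 := by
    rw [← hS]
    apply Finset.card_bij (fun (i : Fin m) _ => (i : ℕ))
    · intro i hi
      exact (mem_filter.1 hi).2
    · intro i _ j _ h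
      exact Fin.ext h
    · intro e he
      exact ⟨⟨e, hSm e he⟩, mem_filter.2 ⟨mem_univ _, he⟩, rfl⟩
  obtain ⟨T, hT1, hT2, hT3⟩ := nar_int
    (fun i : Fin m => d ^ (i : ℕ)) (fun i : Fin m => itc a d i) (fun i => by positivity)
    (fun i j hij => forms_ne hd hg ha (fun h => hij (Fin.ext h))) S' hcard.ge (by
      intro p hp
      apply exists_nat_of_int hp
      obtain ⟨n, hn⟩ := iter_loc hg h2 S hS hcls p hp
      exact ⟨n, fun i hi => hn _ (mem_filter.1 hi).2⟩)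
  refine ⟨T.image (fun i : Fin m => (i : ℕ)), ?_, ?_, ?_⟩
  · intro e he
    obtain ⟨i, hi, rfl⟩ := mem_image.1 he
    exact (mem_filter.1 (hT1 hi)).2
  · rw [card_image_of_injective _ Fin.val_injective]
    exact hT2
  · refine hT3.mono fun n hn j hj => ?_
    obtain ⟨h5, h6⟩ := hn ⟨j, by omega⟩
    refine ⟨h5, h6.trans ?_⟩
    constructor
    · intro h6
      exact mem_image.2 ⟨_, h6, rfl⟩
    · intro h6
      obtain ⟨i, hi, hij⟩ := mem_image.1 h6
      have : i = ⟨j, by omega⟩ := Fin.ext hij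
      rwa [← this]

/-- the exact positions along narrow progressions, for one `R` -/
theorem nar_pat (a d : ℤ) (hd : 1 ≤ d) (hg : Int.gcd a d = 1) (h2 : 2 ∣ a * d) (ha : a ≠ 0)
    (S : Finset ℕ) (hS : S.card = 45)
    (hcls : ∀ p : ℕ, p.Prime → 3 ≤ p → p ≤ 43 → (p : ℤ) ∣ d - 1 → ¬ (p : ℤ) ∣ a →
      ∃ r : ℕ, ∀ e ∈ S, ¬ e ≡ r [MOD p]) (R : ℕ) :
    ∃ T ⊆ S, 2 ≤ T.card ∧ ∃ t ∈ T, (∀ e ∈ T, t ≤ e) ∧ Nar (Pat a d t T R) := by
  classical
  obtain ⟨T', hT1, hT2, hT3⟩ := nar_iter a d hd hg h2 ha (S.map (addRightEmbedding R))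
    (by rw [card_map]; exact hS) (by
      intro p hp h3 h43 h4 h5
      obtain ⟨r, hr⟩ := hcls p hp h3 h43 h4 h5
      refine ⟨r + R, fun e he => ?_⟩
      rw [Finset.mem_map] at he
      obtain ⟨e', he', rfl⟩ := he
      intro hcon
      exact hr e' he' (Nat.ModEq.add_right_cancel' R hcon)) (S.sup id + R + R)
  set T : Finset ℕ := S.filter (fun e => e + R ∈ T') with hT
  have hTT : T.map (addRightEmbedding R) = T' := by
    ext e
    rw [Finset.mem_map]
    constructor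
    · rintro ⟨e', he', rfl⟩
      exact (mem_filter.1 he').2
    · intro he
      obtain ⟨e', he', hee⟩ := Finset.mem_map.1 (hT1 he)
      exact ⟨e', mem_filter.2 ⟨he', by rw [show e' + R = e from hee]; exact he⟩, hee⟩
  have hTcard : 2 ≤ T.card := by
    rw [← card_map (addRightEmbedding R), hTT]; exact hT2
  have hne : T.Nonempty := card_pos.1 (by omega)
  refine ⟨T, filter_subset _ _, hTcard, T.min' hne, T.min'_mem hne, fun e he => T.min'_le e he, ?_⟩
  set t := T.min' hne with ht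
  have htS : t ≤ S.sup id := Finset.le_sup (f := id) ((mem_filter.1 (T.min'_mem hne)).1)
  have hdp : 0 < (d ^ (t + R)).toNat := by
    have : 0 < d ^ (t + R) := by positivity
    omega
  have hdc : (((d ^ (t + R)).toNat : ℕ) : ℤ) = d ^ (t + R) := Int.toNat_of_nonneg (by positivity)
  refine Nar.affZ (α := (d ^ (t + R)).toNat) (β := itc a d (t + R)) hdp hT3 ?_
  intro n hn _
  rw [hdc]
  apply pat_shift (s := R)
  rw [hTT]
  refine pat_of hd (J := S.sup id + R) ?_ (by omega) (by omega) ?_ (fun j hj => (hn j hj).1)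
    (fun j hj => (hn j hj).2)
  · rw [← hTT]
    exact Finset.mem_map.2 ⟨t, T.min'_mem hne, rfl⟩
  · intro e he
    rw [← hTT, Finset.mem_map] at he
    obtain ⟨e', he', rfl⟩ := he
    have := T.min'_le e' he'
    show t + R ≤ e' + R
    omega

/-- **one pattern for all `R`, along narrow progressions** -/
theorem nar_one (a d : ℤ) (hd : 1 ≤ d) (hg : Int.gcd a d = 1) (h2 : 2 ∣ a * d) (ha : a ≠ 0)
    (S : Finset ℕ) (hS : S.card = 45)
    (hcls : ∀ p : ℕ, p.Prime → 3 ≤ p → p ≤ 43 → (p : ℤ) ∣ d - 1 → ¬ (p : ℤ) ∣ a →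
      ∃ r : ℕ, ∀ e ∈ S, ¬ e ≡ r [MOD p]) :
    ∃ T ⊆ S, 2 ≤ T.card ∧ ∃ t ∈ T, (∀ e ∈ T, t ≤ e) ∧ ∀ R : ℕ, Nar (Pat a d t T R) := by
  classical
  choose T hT1 hT2 t ht1 ht2 hR using nar_pat a d hd hg h2 ha S hS hcls
  have hfin : ∀ R, (T R, t R) ∈ S.powerset ×ˢ S := fun R =>
    mem_product.2 ⟨mem_powerset.2 (hT1 R), hT1 R (ht1 R)⟩
  obtain ⟨τ, hτ⟩ := Finite.exists_infinite_fiber
    (fun R : ℕ => (⟨(T R, t R), hfin R⟩ : (S.powerset ×ˢ S : Finset (Finset ℕ × ℕ))))
  have hinf := Set.infinite_coe_iff.1 hτ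
  obtain ⟨R0, hR0⟩ := hinf.nonempty
  have e0 : (T R0, t R0) = (τ : Finset ℕ × ℕ) := congrArg Subtype.val (show _ = τ from hR0)
  refine ⟨T R0, hT1 R0, hT2 R0, t R0, ht1 R0, ht2 R0, fun R => ?_⟩
  obtain ⟨R', hR', hlt⟩ := hinf.exists_gt R
  have e1 : (T R', t R') = (τ : Finset ℕ × ℕ) := congrArg Subtype.val (show _ = τ from hR')
  have e2 : (T R', t R') = (T R0, t R0) := e1.trans e0.symm
  have e3 : T R' = T R0 := congrArg Prod.fst e2
  have e4 : t R' = t R0 := congrArg Prod.snd e2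
  have h5 := hR R'
  rw [e3, e4] at h5
  exact h5.mono fun q hq => hq.mono hlt.le

/-- the pattern relative to its least element -/
theorem pat_rel {a d : ℤ} {T : Finset ℕ} {t : ℕ} (hmin : ∀ e ∈ T, t ≤ e) {R : ℕ} {q : ℕ}
    (h : Pat a d t T R q) : Pat a d 0 ((T.erase t).image (fun e => e - t)) R q := by
  obtain ⟨h4, h5, h6⟩ := h
  refine ⟨h4, fun j hj => ?_, h6⟩
  rw [h5 j hj, zero_add]
  rw [mem_Icc] at hj
  constructor
  · intro h6
    exact mem_image.2 ⟨t + j, mem_erase.2 ⟨by omega, h6⟩, by omega⟩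
  · intro h6
    obtain ⟨e, he, hej⟩ := mem_image.1 h6
    obtain ⟨h7, h8⟩ := mem_erase.1 he
    have h9 := hmin e h8
    have : t + j = e := by omega
    rwa [this]

end Pool.Agent.H40E9.XP
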