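import Mathlib
import Pool.Agent.H40E9.XP.Iter

/-!
# Exact positions along narrow progressions: assembly
-/

set_option autoImplicit false

namespace Pool.Agent.H40E9.XP.N

open Finset Filter
open Pool.Agent.X34.E
open Pool.Agent.R493.EX (shift_sub E45 E45_card E45_le E45_cls)

/-- many narrow progressions of every length inside the set of the `q` with the property `X` -/
def Narrow (X : ℕ → Prop) : Prop := ∀ l : ℕ, ∃ C : ℕ, ∃ᶠ N : ℕ in atTop, ∃ D : ℕ, 1 ≤ D ∧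
  (D : ℝ) ≤ Real.log N ^ C ∧ (N : ℝ) / Real.log N ^ C ≤
    ({q : ℕ | q ≤ N ∧ ∀ s < l, X (q + s * D)}.ncard : ℝ)

theorem narrow_of {X : ℕ → Prop} (h : Nar X) : Narrow X := by
  intro l
  obtain ⟨C, hC⟩ := (nar_iff X).1 h l
  refine ⟨C, hC.mono ?_⟩
  rintro N ⟨d, h1, h2, h3⟩
  refine ⟨d, h1, h2, h3.trans ?_⟩
  rw [Nat.cast_le]
  apply Set.ncard_le_ncard
  · rintro n ⟨-, h4, h5⟩
    exact ⟨h4, h5⟩
  · exact (Set.finite_Iic N).subset fun n hn => hn.1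

theorem fin (a d : ℤ) (hd : 1 ≤ d) (hg : Int.gcd a d = 1) (h2 : 2 ∣ a * d) (ha : a ≠ 0) :
    (∃ T : Finset ℕ, T.Nonempty ∧ T ⊆ Icc 1 106 ∧ ∀ R : ℕ, Narrow (Pat a d 0 T R)) ∧
    ∀ E : Finset ℕ, 45 ≤ E.card →
      (∀ p : ℕ, p.Prime → 3 ≤ p → p ≤ 43 → (p : ℤ) ∣ d - 1 → ¬ (p : ℤ) ∣ a →
        ∃ r : ℕ, ∀ e ∈ E, ¬ e ≡ r [MOD p]) →
      ∃ T ⊆ E, 2 ≤ T.card ∧ ∃ t ∈ T, (∀ e ∈ T, t ≤ e) ∧ ∀ R : ℕ, Narrow (Pat a d t T R) := by
  constructor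
  · obtain ⟨T, hTS, hT2, t, ht, hmin, h⟩ := nar_one a d hd hg h2 ha E45 E45_card
      (fun p hp h3 h43 _ _ => E45_cls p hp h3 h43)
    obtain ⟨h3, h4⟩ := shift_sub (fun e he => E45_le e (hTS he)) hT2 ht hmin
    exact ⟨_, h3, h4, fun R => narrow_of ((h R).mono fun q hq => pat_rel hmin hq)⟩
  · intro E hE hcls
    obtain ⟨S, hSE, hS⟩ := exists_subset_card_eq hE
    obtain ⟨T, hTS, hT2, t, ht, hmin, h⟩ := nar_one a d hd hg h2 ha S hS (by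
      intro p hp h3 h43 h4 h5
      obtain ⟨r, hr⟩ := hcls p hp h3 h43 h4 h5
      exact ⟨r, fun e he => hr e (hSE he)⟩)
    exact ⟨T, hTS.trans hSE, hT2, t, ht, hmin, fun R => narrow_of (h R)⟩

end Pool.Agent.H40E9.XP.N
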